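import Pool.Agent.L7h89.PG.Gb2

/-!
# Project PG (helper34; MP_19b7cf_lc): the part GB1
-/

set_option autoImplicit false

namespace Pool.Agent.L7h89.PG

open CategoryTheory Opposite Limits MonoidalCategory
open Pool.Agent.L7h74.HS (pw pr prn cns)
open Pool.Agent.L7h34.PG

variable {S : Type}

/-- the value of a map on `X ^ 4 ⊗ Δ[j]` -/
def e4 {j : ℕ} (T : pw (XX S) 4 ⊗ Dl j ⟶ XX S) {m : SimplexCategoryᵒᵖ} (x : Fin 4 → El (Bg m) S)
    (t : unop m ⟶ SimplexCategory.mk j) : El (Bg m) S :=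
  T.app m ((x : Fin 4 → (XX S).obj m), ms t)

theorem e4_map {j : ℕ} (T : pw (XX S) 4 ⊗ Dl j ⟶ XX S) {m m' : SimplexCategoryᵒᵖ} (f : m ⟶ m')
    (x : Fin 4 → El (Bg m) S) (t : unop m ⟶ SimplexCategory.mk j) :
    (e4 T x t).map (Bg.res f) = e4 T (fun i => (x i).map (Bg.res f)) (f.unop ≫ t) := by
  have h1 := ConcreteCategory.congr_hom (T.naturality f)
    (((x : Fin 4 → (XX S).obj m), ms t) : (pw (XX S) 4 ⊗ Dl j).obj m)
  exact h1.symm

theorem e4_fc (T : pw (XX S) 4 ⊗ Dl 2 ⟶ XX S) (i : Fin 3) {m : SimplexCategoryᵒᵖ}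
    (x : Fin 4 → El (Bg m) S) (t : unop m ⟶ SimplexCategory.mk 1) :
    e4 (fc T i) x t = e4 T x (t ≫ SimplexCategory.δ i) := rfl

/-- the constant simplices -/
def cst4 (q : Fin 4 → El Unit S) (m : SimplexCategoryᵒᵖ) (i : Fin 4) : El (Bg m) S :=
  (q i).map (fun _ => Bg.one m)

theorem cst4_map (q : Fin 4 → El Unit S) {m m' : SimplexCategoryᵒᵖ} (f : m ⟶ m') :
    (fun i => (cst4 q m i).map (Bg.res f)) = cst4 q m' := by
  funext i
  unfold cst4
  rcases q i with _ | _ | ⟨(_ | _ | _), s⟩ <;> rfl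

/-- the triangle `T` at the constant simplex `q` -/
theorem tri4 (T : pw (XX S) 4 ⊗ Dl 2 ⟶ XX S) (q : Fin 4 → El Unit S) :
    lab (e4 (fc T 2) (cst4 q (op (SimplexCategory.mk 1))) (𝟙 (SimplexCategory.mk 1)))
      (0 : Fin 2) (1 : Fin 2) *
    lab (e4 (fc T 0) (cst4 q (op (SimplexCategory.mk 1))) (𝟙 (SimplexCategory.mk 1)))
      (0 : Fin 2) (1 : Fin 2) =
    lab (e4 (fc T 1) (cst4 q (op (SimplexCategory.mk 1))) (𝟙 (SimplexCategory.mk 1)))
      (0 : Fin 2) (1 : Fin 2) := by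
  have key : ∀ i : Fin 3, (e4 T (cst4 q (op (SimplexCategory.mk 2)))
      (𝟙 (SimplexCategory.mk 2))).map (Bg.res (SimplexCategory.δ i).op) =
      e4 (fc T i) (cst4 q (op (SimplexCategory.mk 1))) (𝟙 (SimplexCategory.mk 1)) := by
    intro i
    rw [e4_map, cst4_map, e4_fc]
    congr 1
  have h := tri (e4 T (cst4 q (op (SimplexCategory.mk 2))) (𝟙 (SimplexCategory.mk 2)))
  rw [key, key, key] at h
  exact h

variable {σ : Equiv.Perm S}

/-- the value of `at'` -/
theorem e4_at (h : pw (XX S) 3 ⊗ Dl 1 ⟶ XX S) (v : Fin 3 → Term 4) {m : SimplexCategoryᵒᵖ}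
    (x : Fin 4 → El (Bg m) S) (t : unop m ⟶ SimplexCategory.mk 1) :
    e4 (at' (mm σ) h v) x t =
      ev h (fun i => (tm (mm σ) (v i)).app m (x : Fin 4 → (XX S).obj m)) t := rfl

/-- the constant value -/
theorem ev_cst (h : pw (XX S) 3 ⊗ Dl 1 ⟶ XX S) (a b c : El Unit S) :
    lbl h a b c = lab (ev h (m := op (SimplexCategory.mk 1))
      ![a.map (fun _ => Bg.one (op (SimplexCategory.mk 1))),
        b.map (fun _ => Bg.one (op (SimplexCategory.mk 1))),
        c.map (fun _ => Bg.one (op (SimplexCategory.mk 1)))]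
      (𝟙 (SimplexCategory.mk 1))) (0 : Fin 2) (1 : Fin 2) := by
  have h1 : (fun i => cn (S := S) (op (SimplexCategory.mk 1)) (![a, b, c] i)) =
      ![a.map (fun _ => Bg.one (op (SimplexCategory.mk 1))),
        b.map (fun _ => Bg.one (op (SimplexCategory.mk 1))),
        c.map (fun _ => Bg.one (op (SimplexCategory.mk 1)))] := by
    funext i
    fin_cases i <;> rfl
  unfold lbl
  rw [h1]
  exact lb_eq _

/-- the vertex of an edge of shape `u` -/
theorem shape_u {w : El (Bg (op (SimplexCategory.mk 1))) S} {l : Bool} {s : S}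
    (h : w.map (Bg.res (SimplexCategory.δ (1 : Fin 2)).op) = .ix (.u l) s) : w = .ix (.u l) s := by
  rcases w with _ | _ | ⟨(_ | _ | _), s'⟩ <;> simp only [El.map, Sh.map, reduceCtorEq,
    El.ix.injEq, Sh.u.injEq, false_and] at h
  rw [h.1, h.2]

/-- the vertex of an edge of shape `y` -/
theorem shape_y {w : El (Bg (op (SimplexCategory.mk 1))) S} {l : Bool} {s : S}
    {c : Bg (op (SimplexCategory.mk 0))}
    (h : w.map (Bg.res (SimplexCategory.δ (1 : Fin 2)).op) = .ix (.y l c) s) :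
    ∃ c', w = .ix (.y l c') s := by
  rcases w with _ | _ | ⟨(_ | ⟨l', c'⟩ | _), s'⟩ <;> simp only [El.map, Sh.map, reduceCtorEq,
    El.ix.injEq, Sh.y.injEq, false_and] at h
  exact ⟨c', by rw [h.1.1, h.2]⟩

/-- **GB1** -/
theorem s_GB1 : S_GB1 := by
  intro S σ hA
  obtain ⟨α, D, E, T1, T2, T3, h12, h10, h11, h22, h20, h21, h32, h30, h31⟩ := hA
  refine ⟨α, fun k k' k'' e e' s hk => ?_⟩
  obtain ⟨hk1, hk2, hk3, hk4⟩ := kc_src hk
  set s' := sft σ (sh k) s with hs'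
  set q : Fin 4 → El Unit S :=
    ![.z, .ix (.u (src k)) s, .ix (.m k e) s, .ix (.m k' e') s'] with hq
  have t1 := tri4 T1 q
  have t2 := tri4 T2 q
  have t3 := tri4 T3 q
  rw [h12, h10, h11] at t1
  rw [h22, h20, h21] at t2
  rw [h32, h30, h31] at t3
  have K1 : lab (e4 (at' (mm σ) α.h ![.mul (.var 0) (.var 1), .var 2, (.var 3 : Term 4)])
      (cst4 q (op (SimplexCategory.mk 1))) (𝟙 (SimplexCategory.mk 1))) (0 : Fin 2) (1 : Fin 2) =
      tl α.h k e s k' e' s' := by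
    unfold tl
    rw [ev_cst, e4_at]
    congr 2
    funext i
    fin_cases i <;> rfl
  have K2 : lab (e4 (at' (mm σ) α.h ![.var 0, .var 1, (.mul (.var 2) (.var 3) : Term 4)])
      (cst4 q (op (SimplexCategory.mk 1))) (𝟙 (SimplexCategory.mk 1))) (0 : Fin 2) (1 : Fin 2) =
      gl α.h k'' (e + e') s := by
    unfold gl
    rw [ev_cst, e4_at]
    congr 2
    funext i
    fin_cases i
    · rfl
    · change El.ix (Sh.u (src k)) s = El.ix (Sh.u (src k'')) s
      rw [hk2]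
    · exact ml_m σ hk e e' s
  have K4 : lab (e4 (at' (mm σ) α.h ![.var 0, .mul (.var 1) (.var 2), (.var 3 : Term 4)])
      (cst4 q (op (SimplexCategory.mk 1))) (𝟙 (SimplexCategory.mk 1))) (0 : Fin 2) (1 : Fin 2) =
      gl α.h k' e' s' := by
    unfold gl
    rw [ev_cst, e4_at]
    congr 2
    funext i
    fin_cases i
    · rfl
    · change ml σ (.ix (.u (src k)) s) (.ix (.m k e) s) = El.ix (Sh.u (src k')) s'
      rw [ml_u, hk1]
    · rfl
  have hc : ∀ i, (SimplexCategory.δ (1 : Fin 2) ≫ 𝟙 (SimplexCategory.mk 1)).toOrderHom i = 0 := by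
    intro i
    fin_cases i
    rfl
  have K3 : lab (e4 (pair (at' (mm σ) α.h ![.var 0, .var 1, (.var 2 : Term 4)])
        (CartesianMonoidalCategory.fst _ _ ≫ pr (XX S) 3) ≫ mm σ)
      (cst4 q (op (SimplexCategory.mk 1))) (𝟙 (SimplexCategory.mk 1))) (0 : Fin 2) (1 : Fin 2) =
      pg k' e' (gl α.h k e s) := by
    set w : El (Bg (op (SimplexCategory.mk 1))) S := ev α.h (m := op (SimplexCategory.mk 1))
      ![.z, .ix (.u (src k)) s, .ix (.m k e) s] (𝟙 (SimplexCategory.mk 1)) with hw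
    have e1 : e4 (pair (at' (mm σ) α.h ![.var 0, .var 1, (.var 2 : Term 4)])
        (CartesianMonoidalCategory.fst _ _ ≫ pr (XX S) 3) ≫ mm σ)
        (cst4 q (op (SimplexCategory.mk 1))) (𝟙 (SimplexCategory.mk 1)) =
        ml σ w (.ix (.m k' e') s') := by
      change ml σ (e4 (at' (mm σ) α.h ![.var 0, .var 1, (.var 2 : Term 4)])
        (cst4 q (op (SimplexCategory.mk 1))) (𝟙 (SimplexCategory.mk 1))) (.ix (.m k' e') s') = _
      rw [e4_at, hw]
      congr 2
      funext i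
      fin_cases i <;> rfl
    have e2 : gl α.h k e s = lab w (0 : Fin 2) (1 : Fin 2) := by
      unfold gl
      rw [ev_cst]
      rfl
    have e3 : ∃ c, w = .ix (.y (tgt k) c) s' := by
      refine shape_y (c := Bg.P _ k e (Bg.one _)) ?_
      rw [hw, ev_map]
      refine (ev_zero α _ _ hc).trans ?_
      change ml σ (ml σ .z (.ix (.u (src k)) s)) (.ix (.m k e) s) = _
      rw [ml_z, ml_y]
    obtain ⟨c, hc'⟩ := e3
    rw [e1, e2, hc', hk1, ml_y]
    rfl
  have K5 : lab (e4 (pair (CartesianMonoidalCategory.fst _ _ ≫ pr (XX S) 0)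
        (at' (mm σ) α.h ![.var 1, .var 2, (.var 3 : Term 4)]) ≫ mm σ)
      (cst4 q (op (SimplexCategory.mk 1))) (𝟙 (SimplexCategory.mk 1))) (0 : Fin 2) (1 : Fin 2) =
      1 := by
    set w : El (Bg (op (SimplexCategory.mk 1))) S := ev α.h (m := op (SimplexCategory.mk 1))
      ![.ix (.u (src k)) s, .ix (.m k e) s, .ix (.m k' e') s'] (𝟙 (SimplexCategory.mk 1)) with hw
    have e1 : e4 (pair (CartesianMonoidalCategory.fst _ _ ≫ pr (XX S) 0)
        (at' (mm σ) α.h ![.var 1, .var 2, (.var 3 : Term 4)]) ≫ mm σ)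
        (cst4 q (op (SimplexCategory.mk 1))) (𝟙 (SimplexCategory.mk 1)) = ml σ .z w := by
      change ml σ .z (e4 (at' (mm σ) α.h ![.var 1, .var 2, (.var 3 : Term 4)])
        (cst4 q (op (SimplexCategory.mk 1))) (𝟙 (SimplexCategory.mk 1))) = _
      rw [e4_at, hw]
      congr 2
      funext i
      fin_cases i <;> rfl
    have e3 : w = .ix (.u (tgt k')) (sft σ (sh k') s') := by
      refine shape_u ?_
      rw [hw, ev_map]
      refine (ev_zero α _ _ hc).trans ?_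
      change ml σ (ml σ (.ix (.u (src k)) s) (.ix (.m k e) s)) (.ix (.m k' e') s') = _
      rw [ml_u, hk1, ml_u]
    rw [e1, e3, ml_z]
    rfl
  rw [K1, K2] at t1
  rw [K3, K4] at t2
  rw [K5, mul_one] at t3
  rw [t1, ← t3, ← t2]

end Pool.Agent.L7h89.PG
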