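import Pool.Agent.L7h34.PG.Stm

/-!
# Project PG (helper34; MP_19b7cf_lc): the part GB2
-/

set_option autoImplicit false

namespace Pool.Agent.L7h89.PG

open CategoryTheory Opposite Limits MonoidalCategory
open Pool.Agent.L7h74.HS (pw pr prn cns)
open Pool.Agent.L7h34.PG

variable {S : Type}

/-- the simplex of `Δ[k]` given by a map -/
def ms {k : ℕ} {m : SimplexCategoryᵒᵖ} (f : unop m ⟶ SimplexCategory.mk k) : (Dl k).obj m :=
  SSet.stdSimplex.objEquiv.symm f

theorem ms_map {k : ℕ} {m m' : SimplexCategoryᵒᵖ} (g : m ⟶ m') (f : unop m ⟶ SimplexCategory.mk k) :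
    (Dl k).map g (ms f) = ms (g.unop ≫ f) := rfl

/-- the value of `h` -/
def ev (h : pw (XX S) 3 ⊗ Dl 1 ⟶ XX S) {m : SimplexCategoryᵒᵖ} (x : Fin 3 → El (Bg m) S)
    (t : unop m ⟶ SimplexCategory.mk 1) : El (Bg m) S :=
  h.app m ((x : Fin 3 → (XX S).obj m), ms t)

theorem ev_map (h : pw (XX S) 3 ⊗ Dl 1 ⟶ XX S) {m m' : SimplexCategoryᵒᵖ} (f : m ⟶ m')
    (x : Fin 3 → El (Bg m) S) (t : unop m ⟶ SimplexCategory.mk 1) :
    (ev h x t).map (Bg.res f) = ev h (fun i => (x i).map (Bg.res f)) (f.unop ≫ t) := by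
  have h1 := ConcreteCategory.congr_hom (h.naturality f)
    (((x : Fin 3 → (XX S).obj m), ms t) : (pw (XX S) 3 ⊗ Dl 1).obj m)
  exact h1.symm

/-- the label of an edge -/
def lab {m : SimplexCategoryᵒᵖ} (w : El (Bg m) S) (i j : Fin (m.unop.len + 1)) : G :=
  match w with
  | .ix (.y _ c) _ => c.1 i j
  | _ => 1

theorem lb_eq (w : El (Bg (op (SimplexCategory.mk 1))) S) :
    lb (S := S) w = lab w (0 : Fin 2) (1 : Fin 2) := by
  rcases w with _ | _ | ⟨(_ | _ | _), s⟩ <;> rfl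

theorem lab_res {m m' : SimplexCategoryᵒᵖ} (f : m ⟶ m') (w : El (Bg m) S)
    (i j : Fin (m'.unop.len + 1)) :
    lab (w.map (Bg.res f)) i j = lab w (f.unop.toOrderHom i) (f.unop.toOrderHom j) := by
  rcases w with _ | _ | ⟨(_ | _ | _), s⟩ <;> rfl

theorem lab_mul {m : SimplexCategoryᵒᵖ} (w : El (Bg m) S) (i j k : Fin (m.unop.len + 1)) :
    lab w i j * lab w j k = lab w i k := by
  rcases w with _ | _ | ⟨(_ | ⟨l, c⟩ | _), s⟩
  · exact mul_one 1
  · exact mul_one 1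
  · exact mul_one 1
  · exact c.2 i j k
  · exact mul_one 1

/-- the three edges of a triangle -/
theorem tri (w : El (Bg (op (SimplexCategory.mk 2))) S) :
    lab (w.map (Bg.res (SimplexCategory.δ (2 : Fin 3)).op)) (0 : Fin 2) (1 : Fin 2) *
      lab (w.map (Bg.res (SimplexCategory.δ (0 : Fin 3)).op)) (0 : Fin 2) (1 : Fin 2) =
      lab (w.map (Bg.res (SimplexCategory.δ (1 : Fin 3)).op)) (0 : Fin 2) (1 : Fin 2) := by
  rw [lab_res, lab_res, lab_res]
  exact lab_mul w (0 : Fin 3) (1 : Fin 3) (2 : Fin 3)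

/-- the simplex of the classifying space with the potential `v` -/
def pt {n : ℕ} (v : Fin (n + 1) → G) : Bg (op (SimplexCategory.mk n)) :=
  ⟨fun i j => (v i)⁻¹ * v j, fun i j k => by
    rw [mul_assoc, mul_inv_cancel_left]⟩

variable {σ : Equiv.Perm S}

/-- the left end of the homotopy -/
theorem ev_zero (α : SSet.Homotopy
      (tm (mm σ) (.mul (.mul (.var 0) (.var 1)) (.var 2) : Term 3))
      (tm (mm σ) (.mul (.var 0) (.mul (.var 1) (.var 2)) : Term 3)))
    {m : SimplexCategoryᵒᵖ} (x : Fin 3 → El (Bg m) S) (t : unop m ⟶ SimplexCategory.mk 1)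
    (ht : ∀ i, t.toOrderHom i = 0) :
    ev α.h x t = ml σ (ml σ (x 0) (x 1)) (x 2) := by
  have h1 : (SSet.ι₀ ≫ α.h : pw (XX S) 3 ⟶ XX S).app m (x : Fin 3 → (XX S).obj m) =
      ml σ (ml σ (x 0) (x 1)) (x 2) := by
    rw [SSet.Homotopy.h₀]
    rfl
  rw [← h1]
  unfold ev
  have h2 : ms t = ((SSet.ι₀ (X := pw (XX S) 3)).app m (x : Fin 3 → (XX S).obj m)).2 := by
    apply SSet.stdSimplex.objEquiv.injective
    apply SimplexCategory.Hom.ext
    apply OrderHom.ext
    funext i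
    exact ht i
  rw [h2]
  rfl

/-- the right end of the homotopy -/
theorem ev_one (α : SSet.Homotopy
      (tm (mm σ) (.mul (.mul (.var 0) (.var 1)) (.var 2) : Term 3))
      (tm (mm σ) (.mul (.var 0) (.mul (.var 1) (.var 2)) : Term 3)))
    {m : SimplexCategoryᵒᵖ} (x : Fin 3 → El (Bg m) S) (t : unop m ⟶ SimplexCategory.mk 1)
    (ht : ∀ i, t.toOrderHom i = 1) :
    ev α.h x t = ml σ (x 0) (ml σ (x 1) (x 2)) := by
  have h1 : (SSet.ι₁ ≫ α.h : pw (XX S) 3 ⟶ XX S).app m (x : Fin 3 → (XX S).obj m) =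
      ml σ (x 0) (ml σ (x 1) (x 2)) := by
    rw [SSet.Homotopy.h₁]
    rfl
  rw [← h1]
  unfold ev
  have h2 : ms t = ((SSet.ι₁ (X := pw (XX S) 3)).app m (x : Fin 3 → (XX S).obj m)).2 := by
    apply SSet.stdSimplex.objEquiv.injective
    apply SimplexCategory.Hom.ext
    apply OrderHom.ext
    funext i
    exact ht i
  rw [h2]
  rfl

theorem kc_src {k k' k'' : Kd} (h : kc k k' = some k'') : tgt k = src k' ∧ src k'' = src k ∧
    tgt k'' = tgt k' ∧ (∀ {S : Type} (σ : Equiv.Perm S) (s : S),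
      sft σ (sh k') (sft σ (sh k) s) = sft σ (sh k'') s) := by
  cases k <;> cases k' <;> simp only [kc, Option.some.injEq, reduceCtorEq] at h <;> subst h <;>
    exact ⟨rfl, rfl, rfl, fun _ _ => rfl⟩

/-- `y · d` -/
theorem ml_y (σ : Equiv.Perm S) {m : SimplexCategoryᵒᵖ} (k : Kd) (e : ZMod 2) (s : S) (c : Bg m) :
    ml σ (.ix (.y (src k) c) s) (.ix (.m k e) s) =
      .ix (.y (tgt k) (Bg.P m k e c)) (sft σ (sh k) s) := by
  unfold ml mul tbl
  simp only [if_true]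
  rw [if_pos (show s = sft σ false s from rfl)]

/-- `u · d` -/
theorem ml_u (σ : Equiv.Perm S) {m : SimplexCategoryᵒᵖ} (k : Kd) (e : ZMod 2) (s : S) :
    ml σ (.ix (.u (src k)) s) (.ix (.m k e) s) =
      (.ix (.u (tgt k)) (sft σ (sh k) s) : El (Bg m) S) := by
  unfold ml mul tbl
  simp only [if_true]
  rw [if_pos (show s = sft σ false s from rfl)]

/-- `z · u` -/
theorem ml_z (σ : Equiv.Perm S) {m : SimplexCategoryᵒᵖ} (l : Bool) (s : S) :
    ml σ .z (.ix (.u l) s) = (.ix (.y l (Bg.one m)) s : El (Bg m) S) := rfl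

/-- `d · d'` -/
theorem ml_m (σ : Equiv.Perm S) {m : SimplexCategoryᵒᵖ} {k k' k'' : Kd} (h : kc k k' = some k'')
    (e e' : ZMod 2) (s : S) :
    ml σ (.ix (.m k e) s) (.ix (.m k' e') (sft σ (sh k) s)) =
      (.ix (.m k'' (e + e')) s : El (Bg m) S) := by
  cases k <;> cases k' <;> simp only [kc, Option.some.injEq, reduceCtorEq] at h <;> subst h <;>
    (unfold ml mul tbl; simp only [kc, Option.map_some]; rw [if_pos trivial]; rfl)

theorem pt_const {n : ℕ} (g : G) (v : Fin (n + 1) → G) (hv : ∀ i, v i = g) :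
    pt v = Bg.one (op (SimplexCategory.mk n)) := by
  apply Subtype.ext
  funext i j
  change (v i)⁻¹ * v j = 1
  rw [hv i, hv j, inv_mul_cancel]

theorem id_of (t : SimplexCategory.mk 1 ⟶ SimplexCategory.mk 1)
    (h0 : t.toOrderHom (0 : Fin 2) = (0 : Fin 2)) (h1 : t.toOrderHom (1 : Fin 2) = (1 : Fin 2)) :
    t = 𝟙 (SimplexCategory.mk 1) := by
  apply SimplexCategory.Hom.ext
  apply OrderHom.ext
  funext i
  have h2 : ∀ i : Fin 2, t.toOrderHom i = i := by
    intro i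
    fin_cases i
    · exact h0
    · exact h1
  exact h2 i

section GB2

variable (k k' : Kd) (e e' : ZMod 2) (s s' : S)

/-- the triple `(y, d, d')` -/
def trp {n : ℕ} (v : Fin (n + 1) → G) : Fin 3 → El (Bg (op (SimplexCategory.mk n))) S :=
  ![.ix (.y (src k) (pt v)) s, .ix (.m k e) s, .ix (.m k' e') s']

theorem trp_map {n n' : ℕ} (f : SimplexCategory.mk n ⟶ SimplexCategory.mk n')
    (v : Fin (n' + 1) → G) :
    (fun i => (trp k k' e e' s s' v i).map (Bg.res f.op)) =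
      trp k k' e e' s s' (fun a => v (f.toOrderHom a)) := by
  funext i
  fin_cases i <;> rfl

theorem tl_eq (h : pw (XX S) 3 ⊗ Dl 1 ⟶ XX S) (g : G) (v : Fin 2 → G) (hv : ∀ i, v i = g) :
    tl h k e s k' e' s' =
      lab (ev h (trp k k' e e' s s' (n := 1) v) (𝟙 (SimplexCategory.mk 1))) (0 : Fin 2) (1 : Fin 2) := by
  have h1 : (fun i => cn (S := S) (op (SimplexCategory.mk 1))
      (![.ix (.y (src k) ()) s, .ix (.m k e) s, .ix (.m k' e') s'] i)) =
      trp k k' e e' s s' (n := 1) v := by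
    funext i
    fin_cases i
    · change El.ix (Sh.y (src k) (Bg.one (op (SimplexCategory.mk 1)))) s =
        El.ix (Sh.y (src k) (pt v)) s
      rw [pt_const g v hv]
    · rfl
    · rfl
  unfold tl lbl
  rw [h1]
  exact lb_eq _

end GB2

/-- **GB2** -/
theorem s_GB2 : S_GB2 := by
  intro S σ α k k' k'' e e' s hk g
  obtain ⟨hk1, hk2, hk3, hk4⟩ := kc_src hk
  set s' := sft σ (sh k) s with hs'
  -- the value of `α` on the edge with the label `g`
  have key : ∀ (v : Fin 3 → G) (t : SimplexCategory.mk 2 ⟶ SimplexCategory.mk 1) (j : Fin 3),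
      (ev α.h (trp k k' e e' s s' (n := 2) v) t).map (Bg.res (SimplexCategory.δ j).op) =
      ev α.h (trp k k' e e' s s' (n := 1) (fun a => v ((SimplexCategory.δ j).toOrderHom a)))
        (SimplexCategory.δ j ≫ t) := by
    intro v t j
    rw [ev_map, trp_map]
    rfl
  have hL : ∀ v : Fin 2 → G, (Bg.P (op (SimplexCategory.mk 1)) k' e'
      (Bg.P (op (SimplexCategory.mk 1)) k e (pt (n := 1) v))).1 (0 : Fin 2) (1 : Fin 2) =
      pg k' e' (pg k e ((v 0)⁻¹ * v 1)) := fun v => rfl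
  have hleft : ∀ (v : Fin 2 → G) (t : SimplexCategory.mk 1 ⟶ SimplexCategory.mk 1),
      (∀ i, t.toOrderHom i = 0) → lab (ev α.h (trp k k' e e' s s' (n := 1) v) t)
        (0 : Fin 2) (1 : Fin 2) = pg k' e' (pg k e ((v 0)⁻¹ * v 1)) := by
    intro v t ht
    rw [ev_zero α _ t ht]
    change lab (ml σ (ml σ (.ix (.y (src k) (pt v)) s) (.ix (.m k e) s)) (.ix (.m k' e') s'))
      (0 : Fin 2) (1 : Fin 2) = _
    rw [ml_y, hk1, ml_y]
    rfl
  have hright : ∀ (v : Fin 2 → G) (t : SimplexCategory.mk 1 ⟶ SimplexCategory.mk 1),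
      (∀ i, t.toOrderHom i = 1) → lab (ev α.h (trp k k' e e' s s' (n := 1) v) t)
        (0 : Fin 2) (1 : Fin 2) = pg k'' (e + e') ((v 0)⁻¹ * v 1) := by
    intro v t ht
    rw [ev_one α _ t ht]
    change lab (ml σ (.ix (.y (src k) (pt v)) s) (ml σ (.ix (.m k e) s) (.ix (.m k' e') s')))
      (0 : Fin 2) (1 : Fin 2) = _
    rw [ml_m σ hk, ← hk2, ml_y]
    rfl
  have a := tri (ev α.h (trp k k' e e' s s' (n := 2) ![1, g, g]) (SimplexCategory.σ (0 : Fin 2)))
  have b := tri (ev α.h (trp k k' e e' s s' (n := 2) ![1, 1, g]) (SimplexCategory.σ (1 : Fin 2)))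
  rw [key, key, key] at a b
  rw [hleft _ (SimplexCategory.δ 2 ≫ SimplexCategory.σ (0 : Fin 2))
    (by intro i; fin_cases i <;> rfl),
    id_of (SimplexCategory.δ 0 ≫ SimplexCategory.σ (0 : Fin 2)) rfl rfl,
    id_of (SimplexCategory.δ 1 ≫ SimplexCategory.σ (0 : Fin 2)) rfl rfl,
    ← tl_eq k k' e e' s s' α.h g _ (by intro i; fin_cases i <;> rfl)] at a
  rw [hright _ (SimplexCategory.δ 0 ≫ SimplexCategory.σ (1 : Fin 2))
    (by intro i; fin_cases i <;> rfl),
    id_of (SimplexCategory.δ 2 ≫ SimplexCategory.σ (1 : Fin 2)) rfl rfl,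
    id_of (SimplexCategory.δ 1 ≫ SimplexCategory.σ (1 : Fin 2)) rfl rfl,
    ← tl_eq k k' e e' s s' α.h 1 _ (by intro i; fin_cases i <;> rfl)] at b
  have h3 : (fun a : Fin 2 => (![1, g, g] : Fin 3 → G)
      ((SimplexCategory.δ (1 : Fin 3)).toOrderHom a)) = ![1, g] := by
    funext i
    fin_cases i <;> rfl
  have h4 : (fun a : Fin 2 => (![1, 1, g] : Fin 3 → G)
      ((SimplexCategory.δ (1 : Fin 3)).toOrderHom a)) = ![1, g] := by
    funext i
    fin_cases i <;> rfl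
  have h5 : ((1 : G))⁻¹ * g = g := by rw [inv_one, one_mul]
  rw [h3] at a
  rw [h4] at b
  have c := a.trans b.symm
  change pg k' e' (pg k e ((1 : G)⁻¹ * g)) * _ = _ * pg k'' (e + e') ((1 : G)⁻¹ * g) at c
  rw [h5] at c
  exact c

end Pool.Agent.L7h89.PG
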