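import Pool.Agent.L7h34.PG.Stm

/-!
# Project PG (helper34; MP_19b7cf_lc): the parts GB3 and GB
-/

set_option autoImplicit false

namespace Pool.Agent.L7h89.PG

open CategoryTheory Opposite Limits MonoidalCategory
open Pool.Agent.L7h74.HS (pw pr prn cns)
open Pool.Agent.L7h34.PG

/-! ### GB3 -/

theorem sn_mul (g h : G) : sn (g * h) = sn g + sn h := by
  obtain ⟨x, y, s⟩ := g
  obtain ⟨x', y', s'⟩ := h
  have h1 : ∀ s s' : Bool, (if (s ^^ s') = true then (1 : ZMod 2) else 0) =
      (if s = true then (1 : ZMod 2) else 0) + (if s' = true then (1 : ZMod 2) else 0) := by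
    decide
  exact h1 s s'

theorem sn_pg (k : Kd) (e : ZMod 2) (g : G) : sn (pg k e g) = sn g := by
  obtain ⟨x, y, s⟩ := g
  unfold pg pa pb
  cases sh k <;> simp only [Bool.false_eq_true, if_false, if_true] <;> split_ifs <;> rfl

/-- the finite check: the two functions are the compositions of the automorphisms -/
theorem chk (i j : Bool) (e e' : ZMod 2) (hij : i = false ∨ j = false) (t : G)
    (h : ∀ g : G, pa e' (pb j (pa e (pb i g))) * t = t * pa (e + e') (pb (i || j) g)) :
    sn t = if j then e else 0 := by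
  have h1 := h ⟨1, 0, false⟩
  have h2 := h ⟨0, 1, false⟩
  have h3 := h ⟨0, 0, true⟩
  obtain ⟨x, y, s⟩ := t
  clear h
  revert h1 h2 h3 x y s e e'
  rcases hij with h | h <;> subst h
  · cases j <;> decide
  · cases i <;> decide

theorem s_GB3 : S_GB3 := by
  refine ⟨?_, sn_mul, sn_pg⟩
  intro k k' k'' e e' hk t h
  cases k <;> cases k' <;> simp only [kc, Option.some.injEq, reduceCtorEq] at hk <;> subst hk
  · exact chk false false e e' (Or.inl rfl) t h
  · exact chk false false e e' (Or.inl rfl) t h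
  · exact chk false true e e' (Or.inl rfl) t h
  · exact chk false false e e' (Or.inl rfl) t h
  · exact chk false false e e' (Or.inl rfl) t h
  · exact chk true false e e' (Or.inr rfl) t h

/-! ### GB -/

theorem s_GB (h1 : S_GB1) (h2 : S_GB2) (h3 : S_GB3) : S_GB := by
  intro S σ hA
  obtain ⟨α, hα⟩ := h1 S σ hA
  have h2' := h2 S σ α
  have key : ∀ (k k' k'' : Kd) (e e' : ZMod 2) (s : S), kc k k' = some k'' →
      (if sh k' then e else 0) + sn (gl α.h k'' (e + e') s) =
        sn (gl α.h k e s) + sn (gl α.h k' e' (sft σ (sh k) s)) := by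
    intro k k' k'' e e' s hk
    have e1 := congrArg sn (hα k k' k'' e e' s hk)
    rw [sn_mul, sn_mul, sn_pg, h3.1 k k' k'' e e' hk _ (h2' k k' k'' e e' s hk)] at e1
    exact e1
  refine ⟨fun s => sn (gl α.h .gv 1 s), fun s => ?_⟩
  have a0 := key .ge .a0 .a0 1 0 s rfl
  have a1 := key .ge .a1 .a1 1 0 s rfl
  have b0 := key .a0 .gv .a0 0 1 s rfl
  have b1 := key .a1 .gv .a1 0 1 s rfl
  simp only [sh, sft, Bool.false_eq_true, if_false, if_true, zero_add, add_zero] at a0 a1 b0 b1
  change sn (gl α.h .gv 1 (σ s)) = sn (gl α.h .gv 1 s) + 1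
  generalize sn (gl α.h .gv 1 (σ s)) = X at *
  generalize sn (gl α.h .gv 1 s) = Y at *
  generalize sn (gl α.h .a0 1 s) = a at *
  generalize sn (gl α.h .a1 1 s) = b at *
  generalize sn (gl α.h .a0 0 s) = c at *
  generalize sn (gl α.h .a1 0 s) = d at *
  generalize sn (gl α.h .ge 1 s) = w at *
  revert a0 a1 b0 b1
  revert X Y a b c d w
  decide

end Pool.Agent.L7h89.PG
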